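import Pool.Agent.H61.Nil

open Filter Topology Pool.Agent.H61.Nil in
theorem Pool.Agent.Results.MP_bb6540_pr.DihedralNoCutoff.result :
    ∃ (G : ℕ → Type) (_ : ∀ n, Group (G n)) (_ : ∀ n, Finite (G n)) (k : ℕ → ℕ),
      (∀ n, Group.IsNilpotent (G n)) ∧ Tendsto (fun n => Nat.card (G n)) atTop atTop ∧
      Tendsto (fun n => Real.log (k n)) atTop atTop ∧
      Tendsto (fun n => Real.log (k n) / Real.log (Nat.card (G n))) atTop (𝓝 0) ∧
      Tendsto (fun n => Real.log (Nat.card (Abelianization (G n))) / k n) atTop (𝓝 0) ∧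
      ¬ Cutoff G k fun n => max (t0 (k n) (Nat.card (Abelianization (G n))))
        (Real.log (Nat.card (G n)) / Real.log (k n)) :=
  main
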